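import Pool.Agent.Q265.WPFinal

set_option autoImplicit false

namespace Pool.Agent.Results.MP_62fa17_nt.SecondSum

/-- The answer to Q2: `B_n = 0` for every integer `n > 1`. -/
theorem result : ∀ n : ℕ, 1 < n → Q265.WP.B n = 0 := by
  intro n hn
  obtain ⟨m, rfl⟩ : ∃ m, n = m + 1 := ⟨n - 1, by omega⟩
  exact Q265.WP.B_eq m (by omega)

end Pool.Agent.Results.MP_62fa17_nt.SecondSum
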